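import Mathlib
import Pool.Agent.P.MP_e3ef68_co.Main

namespace Pool.Agent.Results.MP_e3ef68_co.Commuting

/-- If the unit ball of a Euclidean space `E` is covered by cylinders `H i + B i` with planar bases
and the orthogonal projections onto the `H i` commute pairwise, the base areas sum to at least
`1/5`. -/
theorem result {E : Type*} [NormedAddCommGroup E] [InnerProductSpace ℝ E]
    [FiniteDimensional ℝ E] [MeasurableSpace E] [BorelSpace E] (N : ℕ) (H : Fin N → Submodule ℝ E)
    (B : (i : Fin N) → Set ↥(H i)ᗮ) (hH : ∀ i, Module.finrank ℝ ↥(H i)ᗮ = 2)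
    (hc : ∀ i j, Commute (H i).starProjection (H j).starProjection)
    (hB : ∀ i, MeasurableSet (B i))
    (hcov : Metric.closedBall (0 : E) 1 ⊆ ⋃ i, {x : E | ∃ h ∈ H i, ∃ b ∈ B i, x = h + (b : E)}) :
    ENNReal.ofReal (1 / 5) ≤ ∑ i, MeasureTheory.volume (B i) := by
  have h := Pool.Agent.P.MP_e3ef68_co.commuting N H B hH hc hB hcov
  rwa [one_div, ENNReal.ofReal_inv_of_pos (by norm_num), ENNReal.ofReal_ofNat]

end Pool.Agent.Results.MP_e3ef68_co.Commuting
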