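import Mathlib
import Pool.Agent.P.MP_e3ef68_co.LMain

namespace Pool.Agent.Results.MP_e3ef68_co.LoadBound

/-- If the unit ball of a `d`-dimensional Euclidean space `E` is covered by cylinders `H i + B i`
with planar bases of finite areas `a i`, then `√(2 d) ∑ a i ≥ 10⁻⁶`; and if
`∑ a i ‖P i g‖² ≤ m ‖g‖²` for the projections `P i` onto the base planes,
then `√m ∑ⱼ √(∑ᵢ a i ‖P i (e j)‖²) ≥ 10⁻⁶` for every orthonormal basis `e`. -/
theorem result {E : Type*} [NormedAddCommGroup E] [InnerProductSpace ℝ E]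
    [FiniteDimensional ℝ E] [MeasurableSpace E] [BorelSpace E] {d : ℕ}
    (e : OrthonormalBasis (Fin d) ℝ E) (N : ℕ) (H : Fin N → Submodule ℝ E)
    (B : (i : Fin N) → Set ↥(H i)ᗮ) (hH : ∀ i, Module.finrank ℝ ↥(H i)ᗮ = 2)
    (hB : ∀ i, MeasurableSet (B i)) (hfin : ∀ i, MeasureTheory.volume (B i) ≠ ⊤)
    (hcov : Metric.closedBall (0 : E) 1 ⊆ ⋃ i, {x : E | ∃ h ∈ H i, ∃ b ∈ B i, x = h + (b : E)}) :
    1 / 10 ^ 6 ≤ √(2 * d) * ∑ i, (MeasureTheory.volume (B i)).toReal ∧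
    ∀ m : ℝ, (∀ g : E,
      ∑ i, (MeasureTheory.volume (B i)).toReal * ‖(H i)ᗮ.starProjection g‖ ^ 2 ≤ m * ‖g‖ ^ 2) →
      1 / 10 ^ 6 ≤ √m *
        ∑ j, √(∑ i, (MeasureTheory.volume (B i)).toReal * ‖(H i)ᗮ.starProjection (e j)‖ ^ 2) := by
  refine ⟨?_, fun m hm => Pool.Agent.P.MP_e3ef68_co.Lat.load e N H B hH hB hfin hcov m hm⟩
  have h := Pool.Agent.P.MP_e3ef68_co.Lat.area_sqrt_dim N H B hH hB hfin hcov
  rwa [Module.finrank_eq_card_basis e.toBasis, Fintype.card_fin] at h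

end Pool.Agent.Results.MP_e3ef68_co.LoadBound
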